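import Mathlib
import Pool.Agent.Helper48_LPY.Stmts
import Pool.Agent.Helper48_LPY.Basic

/-!
# LPY, module CONP: upper tail for the picks
-/

set_option autoImplicit false

namespace Pool.Agent.LPY.H88

open Pool.Agent.LAX

theorem ncard_eq_sum {ι : Type} [Fintype ι] (s : Set ι) :
    (s.ncard : ℝ) = ∑ p, s.indicator (fun _ => (1 : ℝ)) p := by
  classical
  simp only [Set.indicator_apply]
  rw [Finset.sum_boole, Set.filter_mem_univ_eq_toFinset, Set.ncard_eq_toFinset_card']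

/-- Convexity of the exponential function. -/
theorem exp_le_chord {x M X : ℝ} (hM : 0 < M) (h0 : 0 ≤ X) (h1 : X ≤ M) :
    Real.exp (x * X) ≤ 1 + X * ((Real.exp (x * M) - 1) / M) := by
  have ha : 0 ≤ 1 - X / M := by
    rw [sub_nonneg, div_le_one hM]
    exact h1
  have hb : 0 ≤ X / M := by positivity
  have hab : (1 - X / M) + X / M = 1 := by ring
  have hc := convexOn_exp.2 (Set.mem_univ (0 : ℝ)) (Set.mem_univ (x * M)) ha hb hab
  simp only [smul_eq_mul, mul_zero, zero_add, Real.exp_zero, mul_one] at hc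
  have h2 : X / M * (x * M) = x * X := by
    field_simp
  rw [h2] at hc
  refine hc.trans (le_of_eq ?_)
  field_simp
  ring

/-- The exponential moment for a random set with at most one node in a column. -/
theorem con_gen (hBSUM : BsumStmt) (hCNB : CnbStmt) {V : Type} [Fintype V] [DecidableEq V]
    {σ : Equiv.Perm V} {a : ℕ} (B : BS σ (2 ^ a)) (ha : 20 ≤ a) (hσ : Cyc σ (2 ^ a))
    (G : (V → Om a) → Set (V × Lab))
    (g1 : ∀ ω v i j, (v, i) ∈ G ω → (v, j) ∈ G ω → i = j)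
    (g2 : ∀ ω v i, (v, i) ∈ G ω → v ∈ pk B ω)
    (g3 : ∀ ω ω' v i, (∀ v' ∈ nb B v, ω v' = ω' v') → (v, i) ∈ G ω → (v, i) ∈ G ω')
    (g4 : ∀ p, ({ω | p ∈ G ω}.ncard : ℝ) ≤ 17 / 14 * rr a * Fintype.card (V → Om a))
    (S : Set (V × Lab)) :
    ∑ ω : V → Om a, Real.exp (th * (S ∩ G ω).ncard) ≤
      Fintype.card (V → Om a) * Real.exp (th * (5 / 4 * rr a * S.ncard)) := by
  classical
  have hne : Nonempty (Om a) := ⟨(⟨0, by positivity⟩, ⟨0, by positivity⟩, 0)⟩
  have hmain := hBSUM V (Om a) σ (2 ^ a) B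
    (fun v ω => th * ∑ i : Lab, (S ∩ G ω).indicator (fun _ => (1 : ℝ)) (v, i))
    (fun v => th * (5 / 4 * rr a * ∑ i : Lab, S.indicator (fun _ => (1 : ℝ)) (v, i)))
    (Nat.one_le_two_pow) ?_ ?_
  · have e1 : ∀ ω : V → Om a,
        ∑ v, th * ∑ i : Lab, (S ∩ G ω).indicator (fun _ => (1 : ℝ)) (v, i) =
          th * (S ∩ G ω).ncard := by
      intro ω
      rw [← Finset.mul_sum, ncard_eq_sum, Fintype.sum_prod_type]
    have e2 : ∑ v, th * (5 / 4 * rr a * ∑ i : Lab, S.indicator (fun _ => (1 : ℝ)) (v, i)) =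
        th * (5 / 4 * rr a * S.ncard) := by
      rw [← Finset.mul_sum, ← Finset.mul_sum, ncard_eq_sum, Fintype.sum_prod_type]
    simp only [e1, e2] at hmain
    exact hmain
  · intro v ω ω' hω
    have h1 : ∀ i : Lab, ((v, i) ∈ G ω ↔ (v, i) ∈ G ω') := fun i =>
      ⟨g3 ω ω' v i hω, g3 ω' ω v i fun v' hv' => (hω v' hv').symm⟩
    have h2 : ∑ i : Lab, (S ∩ G ω).indicator (fun _ => (1 : ℝ)) (v, i) =
        ∑ i : Lab, (S ∩ G ω').indicator (fun _ => (1 : ℝ)) (v, i) := by
      refine Finset.sum_congr rfl fun i _ => ?_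
      simp only [Set.indicator_apply, Set.mem_inter_iff, h1 i]
    show th * ∑ i : Lab, (S ∩ G ω).indicator (fun _ => (1 : ℝ)) (v, i) =
      th * ∑ i : Lab, (S ∩ G ω').indicator (fun _ => (1 : ℝ)) (v, i)
    rw [h2]
  · intro f hf
    -- the number of nodes in the block
    set Blk : Set (V × Lab) := {p | B.st p.1 = f} with hBlk
    have e1 : ∀ ω : V → Om a, 8 * ∑ v, {v | B.st v = f}.indicator (fun v => th *
        ∑ i : Lab, (S ∩ G ω).indicator (fun _ => (1 : ℝ)) (v, i)) v =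
        8 * th * ((Blk ∩ (S ∩ G ω)).ncard : ℝ) := by
      intro ω
      rw [ncard_eq_sum, Fintype.sum_prod_type, mul_assoc]
      congr 1
      rw [Finset.mul_sum]
      refine Finset.sum_congr rfl fun v _ => ?_
      by_cases hv : B.st v = f
      · have h1 : v ∈ {v | B.st v = f} := hv
        rw [Set.indicator_of_mem h1]
        have h3 : ∑ i : Lab, (S ∩ G ω).indicator (fun _ => (1 : ℝ)) (v, i) =
            ∑ i : Lab, (Blk ∩ (S ∩ G ω)).indicator (fun _ => (1 : ℝ)) (v, i) := by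
          refine Finset.sum_congr rfl fun i _ => ?_
          have h2 : (v, i) ∈ Blk := hv
          simp only [Set.indicator_apply, Set.mem_inter_iff, h2, true_and]
        rw [h3]
      · have h1 : v ∉ {v | B.st v = f} := hv
        rw [Set.indicator_of_notMem h1]
        have h2 : ∀ i : Lab, (Blk ∩ (S ∩ G ω)).indicator (fun _ => (1 : ℝ)) (v, i) = 0 := by
          intro i
          apply Set.indicator_of_notMem
          rintro ⟨h3, _⟩
          exact hv h3
        simp only [h2]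
        simp
    have e2 : 8 * ∑ v, {v | B.st v = f}.indicator (fun v => th *
        (5 / 4 * rr a * ∑ i : Lab, S.indicator (fun _ => (1 : ℝ)) (v, i))) v =
        8 * th * (5 / 4 * rr a * ((Blk ∩ S).ncard : ℝ)) := by
      rw [ncard_eq_sum, Fintype.sum_prod_type, mul_assoc]
      congr 1
      rw [Finset.mul_sum, Finset.mul_sum]
      refine Finset.sum_congr rfl fun v _ => ?_
      by_cases hv : B.st v = f
      · have h1 : v ∈ {v | B.st v = f} := hv
        rw [Set.indicator_of_mem h1]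
        have h3 : ∑ i : Lab, S.indicator (fun _ => (1 : ℝ)) (v, i) =
            ∑ i : Lab, (Blk ∩ S).indicator (fun _ => (1 : ℝ)) (v, i) := by
          refine Finset.sum_congr rfl fun i _ => ?_
          have h2 : (v, i) ∈ Blk := hv
          simp only [Set.indicator_apply, Set.mem_inter_iff, h2, true_and]
        rw [h3]
      · have h1 : v ∉ {v | B.st v = f} := hv
        rw [Set.indicator_of_notMem h1]
        have h2 : ∀ i : Lab, (Blk ∩ S).indicator (fun _ => (1 : ℝ)) (v, i) = 0 := by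
          intro i
          apply Set.indicator_of_notMem
          rintro ⟨h3, _⟩
          exact hv h3
        simp only [h2]
        simp
    simp only [e1, e2]
    have hth : th = 1 / 2 ^ 20 := rfl
    have hr := rr_pos a
    -- at most 2048 nodes
    have hX : ∀ ω : V → Om a, ((Blk ∩ (S ∩ G ω)).ncard : ℝ) ≤ 2048 := by
      intro ω
      have h1 : (Blk ∩ (S ∩ G ω)).ncard ≤ {v | B.st v = f ∧ v ∈ pk B ω}.ncard := by
        refine Set.ncard_le_ncard_of_injOn Prod.fst ?_ ?_ (Set.toFinite _)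
        · rintro ⟨v, i⟩ ⟨h2, _, h3⟩
          exact ⟨h2, g2 ω v i h3⟩
        · rintro ⟨v, i⟩ ⟨_, _, h3⟩ ⟨w, j⟩ ⟨_, _, h4⟩ (h5 : v = w)
          subst h5
          rw [g1 ω v i j h3 h4]
      exact_mod_cast h1.trans (hCNB V σ a B ω (by omega) hσ f).1
    set c : ℝ := 8 * th * (1 + 1 / 64) with hc
    have hexp : (Real.exp (8 * th * 2048) - 1) / 2048 ≤ c := by
      have h1 : (8 * th * 2048 : ℝ) = 1 / 64 := by rw [hth]; norm_num
      have h2 := Real.abs_exp_sub_one_sub_id_le (x := (1 / 64 : ℝ)) (by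
        rw [abs_of_pos (by norm_num)]; norm_num)
      have h3 := (abs_le.1 h2).2
      rw [h1, hc, hth]
      rw [div_le_iff₀ (by norm_num)]
      norm_num at h3 ⊢
      linarith
    have hpt : ∀ ω : V → Om a, Real.exp (8 * th * ((Blk ∩ (S ∩ G ω)).ncard : ℝ)) ≤
        1 + c * ((Blk ∩ (S ∩ G ω)).ncard : ℝ) := by
      intro ω
      have h1 := exp_le_chord (x := 8 * th) (M := 2048) (X := ((Blk ∩ (S ∩ G ω)).ncard : ℝ))
        (by norm_num) (Nat.cast_nonneg _) (hX ω)
      refine h1.trans ?_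
      have h2 := mul_le_mul_of_nonneg_left hexp
        (Nat.cast_nonneg (Blk ∩ (S ∩ G ω)).ncard : (0 : ℝ) ≤ _)
      linarith
    have hmean : ∑ ω : V → Om a, ((Blk ∩ (S ∩ G ω)).ncard : ℝ) ≤
        17 / 14 * rr a * Fintype.card (V → Om a) * ((Blk ∩ S).ncard : ℝ) := by
      have h1 : ∀ ω : V → Om a, ((Blk ∩ (S ∩ G ω)).ncard : ℝ) =
          ∑ p, (Blk ∩ S).indicator (fun p => {ω | p ∈ G ω}.indicator (fun _ => (1 : ℝ)) ω) p := by
        intro ω
        rw [ncard_eq_sum]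
        refine Finset.sum_congr rfl fun p _ => ?_
        by_cases hp : p ∈ Blk ∩ S
        · rw [Set.indicator_of_mem hp]
          by_cases hp2 : p ∈ G ω
          · have h3 : p ∈ Blk ∩ (S ∩ G ω) := ⟨hp.1, hp.2, hp2⟩
            have h4 : ω ∈ {ω | p ∈ G ω} := hp2
            rw [Set.indicator_of_mem h3, Set.indicator_of_mem h4]
          · have h3 : p ∉ Blk ∩ (S ∩ G ω) := fun h => hp2 h.2.2
            have h4 : ω ∉ {ω | p ∈ G ω} := hp2
            rw [Set.indicator_of_notMem h3, Set.indicator_of_notMem h4]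
        · rw [Set.indicator_of_notMem hp, Set.indicator_of_notMem fun h => hp ⟨h.1, h.2.1⟩]
      simp only [h1]
      rw [Finset.sum_comm, ncard_eq_sum (Blk ∩ S), Finset.mul_sum]
      refine Finset.sum_le_sum fun p _ => ?_
      by_cases hp : p ∈ Blk ∩ S
      · simp only [Set.indicator_of_mem hp, mul_one]
        rw [← ncard_eq_sum]
        exact g4 p
      · simp only [Set.indicator_of_notMem hp]
        simp
    have hcpos : 0 ≤ c := by rw [hc, hth]; norm_num
    have hcard : (0 : ℝ) ≤ (Fintype.card (V → Om a) : ℝ) := Nat.cast_nonneg _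
    calc ∑ ω : V → Om a, Real.exp (8 * th * ((Blk ∩ (S ∩ G ω)).ncard : ℝ))
        ≤ ∑ ω : V → Om a, (1 + c * ((Blk ∩ (S ∩ G ω)).ncard : ℝ)) :=
          Finset.sum_le_sum fun ω _ => hpt ω
      _ = (Fintype.card (V → Om a) : ℝ) + c * ∑ ω : V → Om a, ((Blk ∩ (S ∩ G ω)).ncard : ℝ) := by
          rw [Finset.sum_add_distrib, ← Finset.mul_sum]
          simp
      _ ≤ (Fintype.card (V → Om a) : ℝ) + c * (17 / 14 * rr a * Fintype.card (V → Om a) *
            ((Blk ∩ S).ncard : ℝ)) := by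
          linarith [mul_le_mul_of_nonneg_left hmean hcpos]
      _ = (Fintype.card (V → Om a) : ℝ) * (c * (17 / 14 * rr a * ((Blk ∩ S).ncard : ℝ)) + 1) := by
          ring
      _ ≤ (Fintype.card (V → Om a) : ℝ) *
            Real.exp (c * (17 / 14 * rr a * ((Blk ∩ S).ncard : ℝ))) :=
          mul_le_mul_of_nonneg_left (Real.add_one_le_exp _) hcard
      _ ≤ (Fintype.card (V → Om a) : ℝ) *
            Real.exp (8 * th * (5 / 4 * rr a * ((Blk ∩ S).ncard : ℝ))) := by
          refine mul_le_mul_of_nonneg_left (Real.exp_le_exp.2 ?_) hcard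
          have h2 : (0 : ℝ) ≤ rr a * ((Blk ∩ S).ncard : ℝ) := by positivity
          have h3 : c * (17 / 14) ≤ 8 * th * (5 / 4) := by rw [hc, hth]; norm_num
          have h4 := mul_le_mul_of_nonneg_right h3 h2
          calc c * (17 / 14 * rr a * ((Blk ∩ S).ncard : ℝ))
              = c * (17 / 14) * (rr a * ((Blk ∩ S).ncard : ℝ)) := by ring
            _ ≤ 8 * th * (5 / 4) * (rr a * ((Blk ∩ S).ncard : ℝ)) := h4
            _ = 8 * th * (5 / 4 * rr a * ((Blk ∩ S).ncard : ℝ)) := by ring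

theorem not_isEnd_of_isFlex {V : Type} {σ : Equiv.Perm V} {a : ℕ} {B : BS σ (2 ^ a)}
    {ω : V → Om a} {v : V} (h : isFlex B ω v) : ¬ isEnd B ω v := by
  have := (h.2.2 0 (Nat.zero_le _)).1
  simpa using this

/-- CONP. -/
theorem conp (hBSUM : BsumStmt) (hMARF : MarfStmt) (hMARE : MareStmt) (hCNB : CnbStmt)
    (hLOC : LocStmt) : ConpStmt := by
  classical
  intro V _ _ σ a B S ha hσ
  obtain ⟨e, he⟩ := hMARE V σ a B ha
  have hr := rr_pos a
  have hcard : (0 : ℝ) ≤ (Fintype.card (V → Om a) : ℝ) := Nat.cast_nonneg _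
  constructor
  · refine con_gen hBSUM hCNB B ha hσ (fun ω => FL B ω ∪ ET B ω) ?_ ?_ ?_ ?_ S
    · rintro ω v i j (⟨_, h1⟩ | ⟨_, h1⟩) (⟨_, h2⟩ | ⟨_, h2⟩) <;>
      exact h1.symm.trans h2
    · rintro ω v i (⟨h1, _⟩ | ⟨h1, _⟩)
      · exact Or.inl h1
      · exact Or.inr h1
    · intro ω ω' v i hω h
      obtain ⟨l1, l2, l3, l4⟩ := hLOC V σ a B ω ω' v (by omega) hω
      rcases h with ⟨h1, h2⟩ | ⟨h1, h2⟩
      · exact Or.inl ⟨l1.1 h1, l3.symm.trans h2⟩
      · exact Or.inr ⟨l2.1 h1, l3.symm.trans h2⟩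
    · rintro ⟨v, i⟩
      obtain ⟨he0, he1, -, he3⟩ := he v
      have h1 : ({ω | (v, i) ∈ FL B ω ∪ ET B ω}.ncard : ℝ) ≤
          ({ω | (v, i) ∈ FL B ω}.ncard : ℝ) + ({ω | (v, i) ∈ ET B ω}.ncard : ℝ) := by
        have h2 : {ω | (v, i) ∈ FL B ω ∪ ET B ω} =
            {ω | (v, i) ∈ FL B ω} ∪ {ω | (v, i) ∈ ET B ω} := rfl
        rw [h2]
        exact_mod_cast Set.ncard_union_le _ _
      have h3 := (hMARF V σ a B ha hσ (v, i)).2
      have h4 := (he3 i).1
      have h5 : e v * (Fintype.card (V → Om a) : ℝ) ≤ rr a / 14 * Fintype.card (V → Om a) :=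
        mul_le_mul_of_nonneg_right he1 hcard
      refine h1.trans ?_
      rw [h4]
      linarith
  · refine con_gen hBSUM hCNB B ha hσ (fun ω => FL B ω ∪ EH B ω) ?_ ?_ ?_ ?_ S
    · rintro ω v i j (⟨h3, h1⟩ | ⟨h3, h1⟩) (⟨h4, h2⟩ | ⟨h4, h2⟩)
      · exact h1.symm.trans h2
      · exact absurd h4 (not_isEnd_of_isFlex h3)
      · exact absurd h3 (not_isEnd_of_isFlex h4)
      · exact h1.symm.trans h2
    · rintro ω v i (⟨h1, _⟩ | ⟨h1, _⟩)
      · exact Or.inl h1
      · exact Or.inr h1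
    · intro ω ω' v i hω h
      obtain ⟨l1, l2, l3, l4⟩ := hLOC V σ a B ω ω' v (by omega) hω
      rcases h with ⟨h1, h2⟩ | ⟨h1, h2⟩
      · exact Or.inl ⟨l1.1 h1, l3.symm.trans h2⟩
      · exact Or.inr ⟨l2.1 h1, l4.symm.trans h2⟩
    · rintro ⟨v, i⟩
      obtain ⟨he0, he1, -, he3⟩ := he v
      have h1 : ({ω | (v, i) ∈ FL B ω ∪ EH B ω}.ncard : ℝ) ≤
          ({ω | (v, i) ∈ FL B ω}.ncard : ℝ) + ({ω | (v, i) ∈ EH B ω}.ncard : ℝ) := by
        have h2 : {ω | (v, i) ∈ FL B ω ∪ EH B ω} =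
            {ω | (v, i) ∈ FL B ω} ∪ {ω | (v, i) ∈ EH B ω} := rfl
        rw [h2]
        exact_mod_cast Set.ncard_union_le _ _
      have h3 := (hMARF V σ a B ha hσ (v, i)).2
      have h4 := (he3 i).2
      have h5 : e v * (Fintype.card (V → Om a) : ℝ) ≤ rr a / 14 * Fintype.card (V → Om a) :=
        mul_le_mul_of_nonneg_right he1 hcard
      refine h1.trans ?_
      rw [h4]
      linarith

end Pool.Agent.LPY.H88
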