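import Mathlib
import Pool.Agent.Helper48_LPY.Stmts
import Pool.Agent.Helper48_LPY.Basic

/-!
# LPY, module CPY: the step for arbitrary classes, by means of copies
-/

set_option autoImplicit false

namespace Pool.Agent.LPY.H88

open Pool.Agent.LAX

variable {V : Type}

open Classical in
/-- A partial injection of a finite set extends to a permutation. -/
theorem exists_perm [Finite V] {K : Set (V × V)} (hK : PI K) :
    ∃ s : Equiv.Perm V, ∀ p ∈ K, s p.1 = p.2 := by
  have hdom : ∀ x : {x // x ∈ dom K}, ∃ y : {y // y ∈ ran K}, (x.1, y.1) ∈ K := by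
    rintro ⟨x, y, hy⟩
    exact ⟨⟨y, x, hy⟩, hy⟩
  choose f hf using hdom
  have hbij : Function.Bijective f := by
    constructor
    · intro x x' hxx
      apply Subtype.ext
      have h1 := hf x
      have h2 := hf x'
      rw [← hxx] at h2
      exact hK.2 _ _ _ h1 h2
    · rintro ⟨y, x, hx⟩
      refine ⟨⟨x, y, hx⟩, ?_⟩
      apply Subtype.ext
      exact hK.1 _ _ _ (hf ⟨x, y, hx⟩) hx
  refine ⟨(Equiv.ofBijective f hbij).extendSubtype, ?_⟩
  rintro ⟨x, y⟩ hxy
  have hx : x ∈ dom K := ⟨y, hxy⟩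
  have h1 := (Equiv.ofBijective f hbij).extendSubtype_apply_of_mem x hx
  rw [h1]
  exact hK.1 _ _ _ (hf ⟨x, hx⟩) hxy

/-- The copies of an arc set. -/
def lift (N : ℕ) (K : Set (V × V)) : Set ((V × ZMod N) × (V × ZMod N)) :=
  {p | (p.1.1, p.2.1) ∈ K ∧ p.1.2 = p.2.2}

open Classical in
/-- The permutation of the copies. -/
noncomputable def sg (N : ℕ) (K : Set (V × V)) (s : Equiv.Perm V) : Equiv.Perm (V × ZMod N) :=
  Equiv.prodShear s fun v => if v ∈ dom K then Equiv.refl _ else Equiv.addRight 1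

open Classical in
theorem sg_apply (N : ℕ) (K : Set (V × V)) (s : Equiv.Perm V) (v : V) (i : ZMod N) :
    sg N K s (v, i) = (s v, if v ∈ dom K then i else i + 1) := by
  unfold sg
  by_cases h : v ∈ dom K
  · simp [Equiv.prodShear, h]
  · simp [Equiv.prodShear, h]

open Classical in
theorem sg_pow (N : ℕ) (K : Set (V × V)) (s : Equiv.Perm V) (v : V) (i : ZMod N) (j : ℕ) :
    ((sg N K s) ^ j) (v, i) = ((s ^ j) v,
      i + ((((Finset.range j).filter fun t => (s ^ t) v ∉ dom K).card : ℕ) : ZMod N)) := by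
  induction j with
  | zero => simp
  | succ j ih =>
    rw [pow_succ', Equiv.Perm.mul_apply, ih, sg_apply, pow_succ', Equiv.Perm.mul_apply,
      Finset.range_add_one, Finset.filter_insert]
    by_cases h : (s ^ j) v ∈ dom K
    · simp [h]
    · rw [if_neg h, if_pos h, Finset.card_insert_of_notMem (by simp)]
      push_cast
      rw [add_assoc]

theorem cyc_sg {N : ℕ} {K : Set (V × V)} {s : Equiv.Perm V} (hs : ∀ p ∈ K, s p.1 = p.2)
    (hK : CW K N) : Cyc (sg N K s) N := by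
  classical
  rintro j ⟨v, i⟩ hj hjN heq
  rw [sg_pow] at heq
  rw [Prod.mk.injEq] at heq
  obtain ⟨h1, h2⟩ := heq
  have h3 : ((((Finset.range j).filter fun t => (s ^ t) v ∉ dom K).card : ℕ) : ZMod N) = 0 := by
    exact add_eq_left.1 h2
  rw [ZMod.natCast_eq_zero_iff] at h3
  have h4 : ((Finset.range j).filter fun t => (s ^ t) v ∉ dom K).card ≤ j := by
    refine (Finset.card_filter_le _ _).trans ?_
    simp
  have h5 : ((Finset.range j).filter fun t => (s ^ t) v ∉ dom K).card = 0 :=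
    Nat.eq_zero_of_dvd_of_lt h3 (lt_of_le_of_lt h4 hjN)
  rw [Finset.card_eq_zero, Finset.filter_eq_empty_iff] at h5
  have h6 : N ≤ j := by
    refine hK j (fun t => (s ^ t) v) hj ?_ ?_
    · intro t ht
      have h7 : (s ^ t) v ∈ dom K := not_not.1 (h5 (Finset.mem_range.2 ht))
      obtain ⟨w, hw⟩ := h7
      have h8 : s ((s ^ t) v) = w := hs _ hw
      show ((s ^ t) v, (s ^ (t + 1)) v) ∈ K
      rw [pow_succ', Equiv.Perm.mul_apply, h8]
      exact hw
    · simpa using h1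
  omega

theorem pi_lift {N : ℕ} {K : Set (V × V)} (hK : PI K) : PI (lift N K) := by
  constructor
  · rintro ⟨x, i⟩ ⟨y, j⟩ ⟨y', j'⟩ ⟨h1, h2⟩ ⟨h3, h4⟩
    exact Prod.ext (hK.1 _ _ _ h1 h3) (h2.symm.trans h4)
  · rintro ⟨x, i⟩ ⟨x', i'⟩ ⟨y, j⟩ ⟨h1, h2⟩ ⟨h3, h4⟩
    exact Prod.ext (hK.2 _ _ _ h1 h3) (h2.trans h4.symm)

theorem cw_lift {N b : ℕ} {K : Set (V × V)} (hK : CW K b) : CW (lift N K) b := by
  intro j c hj hc hcc
  refine hK j (fun i => (c i).1) hj (fun i hi => (hc i hi).1) ?_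
  show (c j).1 = (c 0).1
  rw [hcc]

theorem mem_dom_lift {N : ℕ} {K : Set (V × V)} {v : V} {i : ZMod N} :
    (v, i) ∈ dom (lift N K) ↔ v ∈ dom K := by
  constructor
  · rintro ⟨⟨w, j⟩, h1, h2⟩
    exact ⟨w, h1⟩
  · rintro ⟨w, h⟩
    exact ⟨(w, i), h, rfl⟩

theorem mem_ran_lift {N : ℕ} {K : Set (V × V)} {v : V} {i : ZMod N} :
    (v, i) ∈ ran (lift N K) ↔ v ∈ ran K := by
  constructor
  · rintro ⟨⟨w, j⟩, h1, h2⟩
    exact ⟨w, h1⟩
  · rintro ⟨w, h⟩
    exact ⟨(w, i), h, rfl⟩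

theorem reg_lift {N k : ℕ} {E : Set (V × V)} (hE : Reg E k) : Reg (lift N E) k := by
  rintro ⟨v, i⟩
  constructor
  · have h : out (lift N E) (v, i) = (out E v) ×ˢ {i} := by
      ext ⟨w, j⟩
      simp only [out, lift, Set.mem_ofPred_eq, Set.mem_prod, Set.mem_singleton_iff]
      constructor
      · rintro ⟨h1, h2⟩
        exact ⟨h1, h2.symm⟩
      · rintro ⟨h1, h2⟩
        exact ⟨h1, h2.symm⟩
    rw [h, Set.ncard_prod, Set.ncard_singleton, mul_one]
    exact (hE v).1
  · have h : inn (lift N E) (v, i) = (inn E v) ×ˢ {i} := by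
      ext ⟨w, j⟩
      simp only [inn, lift, Set.mem_ofPred_eq, Set.mem_prod, Set.mem_singleton_iff]
    rw [h, Set.ncard_prod, Set.ncard_singleton, mul_one]
    exact (hE v).2

/-- CPY. -/
theorem cpy (hSTP : StpStmt) : CpyStmt := by
  classical
  intro V _ E k l a h q W K hNum hReg hStt
  set N : ℕ := 2 ^ a with hN
  have : NeZero N := ⟨by positivity⟩
  set K₁ : ℕ → Set (V × V) := fun c => if c < q then K c else ∅ with hK₁
  have hK₁q : ∀ c < q, K₁ c = K c := fun c hc => by simp [hK₁, hc]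
  have hpi : ∀ c, PI (K₁ c) := by
    intro c
    by_cases hc : c < q
    · rw [hK₁q c hc]
      exact hStt.pi c hc
    · simp only [hK₁, if_neg hc]
      exact pi_empty
  have hcw : ∀ c, CW (K₁ c) N := by
    intro c
    by_cases hc : c < q
    · rw [hK₁q c hc]
      exact hStt.cw c hc
    · simp only [hK₁, if_neg hc]
      exact cw_empty _
  choose s hs using fun c => exists_perm (hpi c)
  obtain ⟨K'', hK''⟩ := hSTP (V × ZMod N) (lift N E) k l a h q W (fun c => sg N (K₁ c) (s c))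
    (fun c => lift N (K₁ c)) hNum (reg_lift hReg) (fun c => cyc_sg (hs c) (hcw c))
    (by
      rintro c ⟨⟨v, i⟩, ⟨w, j⟩⟩ ⟨h1, h2⟩
      have h1' : (v, w) ∈ K₁ c := h1
      have h2' : i = j := h2
      have h3 : v ∈ dom (K₁ c) := ⟨w, h1'⟩
      have h4 : (s c) v = w := hs c _ h1'
      show sg N (K₁ c) (s c) (v, i) = (w, j)
      rw [sg_apply, if_pos h3, h4, h2'])
    (by
      constructor
      · intro c hc
        rw [hK₁q c hc]
        rintro ⟨⟨v, i⟩, ⟨w, j⟩⟩ ⟨h1, h2⟩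
        exact ⟨hStt.sub c hc h1, h2⟩
      · intro c _
        exact pi_lift (hpi c)
      · intro c _
        exact cw_lift (hcw c)
      · intro c hc d hd hcd
        rw [hK₁q c hc, hK₁q d hd, Set.disjoint_left]
        rintro ⟨⟨v, i⟩, ⟨w, j⟩⟩ ⟨h1, _⟩ ⟨h3, _⟩
        exact Set.disjoint_left.1 (hStt.disj c hc d hd hcd) h1 h3
      · rintro ⟨v, i⟩
        refine le_trans (le_of_eq ?_) (hStt.mo v)
        congr 1
        ext c
        simp only [Set.mem_ofPred_eq, mem_dom_lift]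
        constructor
        · rintro ⟨h1, h2⟩
          rw [hK₁q c h1] at h2
          exact ⟨h1, h2⟩
        · rintro ⟨h1, h2⟩
          rw [hK₁q c h1]
          exact ⟨h1, h2⟩
      · rintro ⟨v, i⟩
        refine le_trans (le_of_eq ?_) (hStt.mi v)
        congr 1
        ext c
        simp only [Set.mem_ofPred_eq, mem_ran_lift]
        constructor
        · rintro ⟨h1, h2⟩
          rw [hK₁q c h1] at h2
          exact ⟨h1, h2⟩
        · rintro ⟨h1, h2⟩
          rw [hK₁q c h1]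
          exact ⟨h1, h2⟩)
  refine ⟨fun c => {p | ((p.1, (0 : ZMod N)), (p.2, (0 : ZMod N))) ∈ K'' c}, ?_⟩
  constructor
  · intro c hc p hp
    exact (hK''.sub c hc hp).1
  · intro c hc
    constructor
    · intro x y y' h1 h2
      have := (hK''.pi c hc).1 _ _ _ h1 h2
      exact congrArg Prod.fst this
    · intro x x' y h1 h2
      have := (hK''.pi c hc).2 _ _ _ h1 h2
      exact congrArg Prod.fst this
  · intro c hc j w hj hw hww
    refine hK''.cw c hc j (fun i => (w i, 0)) hj (fun i hi => hw i hi) ?_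
    show (w j, (0 : ZMod N)) = (w 0, 0)
    rw [hww]
  · intro c hc d hd hcd
    rw [Set.disjoint_left]
    intro p h1 h2
    exact Set.disjoint_left.1 (hK''.disj c hc d hd hcd) h1 h2
  · intro v
    refine le_trans (Set.ncard_le_ncard ?_ ((Set.finite_lt_nat q).subset fun c hc => hc.1))
      (hK''.mo (v, 0))
    rintro c ⟨hc, h1⟩
    refine ⟨hc, fun h2 => h1 ?_⟩
    obtain ⟨⟨w, j⟩, hw⟩ := h2
    have h3 : (0 : ZMod N) = j := (hK''.sub c hc hw).2
    refine ⟨w, ?_⟩
    show ((v, (0 : ZMod N)), (w, (0 : ZMod N))) ∈ K'' c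
    rw [← h3] at hw
    exact hw
  · intro v
    refine le_trans (Set.ncard_le_ncard ?_ ((Set.finite_lt_nat q).subset fun c hc => hc.1))
      (hK''.mi (v, 0))
    rintro c ⟨hc, h1⟩
    refine ⟨hc, fun h2 => h1 ?_⟩
    obtain ⟨⟨w, j⟩, hw⟩ := h2
    have h3 : j = (0 : ZMod N) := (hK''.sub c hc hw).2
    refine ⟨w, ?_⟩
    show ((w, (0 : ZMod N)), (v, (0 : ZMod N))) ∈ K'' c
    rw [h3] at hw
    exact hw

end Pool.Agent.LPY.H88
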